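import Mathlib
import Pool.Agent.H.MP_8a0632_lc.Core
open Filter Topology
namespace Pool.Agent.Results.MP_8a0632_lc.NotEU

def IsIdeal (I : Set (Set ℕ)) : Prop :=
  (∀ A ∈ I, ∀ B ∈ I, A ∪ B ∈ I) ∧ (∀ A ∈ I, ∀ B, B ⊆ A → B ∈ I) ∧
    Set.univ ∉ I ∧ ∀ A : Set ℕ, A.Finite → A ∈ I

def DensZero : Set (Set ℕ) :=
  {A | Tendsto (fun n : ℕ => ((A ∩ Set.Iio n).ncard : ℝ) / n) atTop (𝓝 0)}

def EU (f : ℕ → ℝ) : Set (Set ℕ) :=
  {A | Tendsto (fun n : ℕ => (∑ i ∈ Finset.range n, A.indicator f i) / ∑ i ∈ Finset.range n, f i)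
    atTop (𝓝 0)}

def RB (I J : Set (Set ℕ)) : Prop :=
  ∃ φ : ℕ → ℕ, (∀ a, (φ ⁻¹' {a}).Finite) ∧ ∀ A : Set ℕ, A ∈ I ↔ φ ⁻¹' A ∈ J

open Pool.Agent.H.MP_8a0632_lc

lemma dens_ideal : IsIdeal DensZero := by
  have hle : ∀ A B C : Set ℕ, C ⊆ A ∪ B → A ∈ DensZero → B ∈ DensZero → C ∈ DensZero := by
    intro A B C h hA hB
    have h1 := Tendsto.add hA hB
    rw [add_zero] at h1
    refine tendsto_of_tendsto_of_tendsto_of_le_of_le tendsto_const_nhds h1
      (fun n => by positivity) (fun n => ?_)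
    simp only
    rw [← add_div]
    refine div_le_div_of_nonneg_right ?_ (Nat.cast_nonneg _)
    have h2 : (C ∩ Set.Iio n).ncard ≤ (A ∩ Set.Iio n).ncard + (B ∩ Set.Iio n).ncard := by
      refine le_trans (Set.ncard_le_ncard ?_ ?_) (Set.ncard_union_le _ _)
      · rintro x ⟨hx, hx2⟩
        rcases h hx with h3 | h3
        · exact Or.inl ⟨h3, hx2⟩
        · exact Or.inr ⟨h3, hx2⟩
      · exact ((Set.finite_Iio n).inter_of_right _).union ((Set.finite_Iio n).inter_of_right _)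
    exact_mod_cast h2
  refine ⟨fun A hA B hB => hle A B _ subset_rfl hA hB,
    fun A hA B hB => hle A A B (by simpa using hB) hA hA, ?_, ?_⟩
  · intro h
    have h1 : Tendsto (fun n : ℕ => ((Set.univ ∩ Set.Iio n).ncard : ℝ) / n) atTop (𝓝 1) := by
      refine tendsto_const_nhds.congr' ?_
      filter_upwards [eventually_gt_atTop 0] with n hn
      have : (n:ℝ) ≠ 0 := by positivity
      simp [this]
    exact one_ne_zero (tendsto_nhds_unique h1 h)
  · intro A hA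
    have h1 : Tendsto (fun n : ℕ => (A.ncard : ℝ) / n) atTop (𝓝 0) :=
      tendsto_const_nhds.div_atTop tendsto_natCast_atTop_atTop
    refine tendsto_of_tendsto_of_tendsto_of_le_of_le tendsto_const_nhds h1
      (fun n => by positivity) (fun n => ?_)
    refine div_le_div_of_nonneg_right ?_ (Nat.cast_nonneg _)
    exact Nat.cast_le.mpr (Set.ncard_le_ncard Set.inter_subset_left hA)

theorem result : ∃ I : Set (Set ℕ), IsIdeal I ∧ RB I DensZero ∧ RB DensZero I ∧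
    ∀ (σ : ℕ ≃ ℕ) (f : ℕ → ℝ), (∀ i, 0 ≤ f i) →
      Tendsto (fun n => ∑ i ∈ Finset.range n, f i) atTop atTop →
      Tendsto (fun n => f n / ∑ i ∈ Finset.range (n + 1), f i) atTop (𝓝 0) →
      I ≠ {A | σ '' A ∈ EU f} := by
  have hI : ∀ A : Set ℕ, phi ⁻¹' A ∈ DensZero ↔ Lines (fun n => 2 ^ n) P A :=
    fun A => (dens_iff _).trans (phi_iff A)
  obtain ⟨d1, d2, d3, d4⟩ := dens_ideal
  refine ⟨{A | phi ⁻¹' A ∈ DensZero}, ⟨?_, ?_, ?_, ?_⟩, ⟨phi, phi_fin, fun A => Iff.rfl⟩,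
    ⟨psi, psi_fin, fun B => ?_⟩, ?_⟩
  · intro A hA B hB
    rw [Set.mem_ofPred_eq] at hA hB ⊢
    rw [Set.preimage_union]
    exact d1 _ hA _ hB
  · intro A hA B hB
    rw [Set.mem_ofPred_eq] at hA ⊢
    exact d2 _ hA _ (Set.preimage_mono hB)
  · rw [Set.mem_ofPred_eq, Set.preimage_univ]
    exact d3
  · intro A hA
    rw [Set.mem_ofPred_eq]
    exact d4 _ (hA.preimage' fun b _ => phi_fin b)
  · rw [Set.mem_ofPred_eq (p := fun A => phi ⁻¹' A ∈ DensZero), hI, psi_iff]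
    exact dens_iff B
  · intro σ f h0 hF _ hEq
    refine main (f := f) (m := fun n => 2 ^ n) (Q := fun n b r t => σ (P n b r t)) h0 hF
      (tendsto_pow_atTop_atTop_of_one_lt (by norm_num)) ?_ ?_ ?_ ?_ ?_
    · intro n b r x y h
      have := σ.injective h
      cases b <;> simpa [P] using this
    · intro n x y x' y' h
      simpa [P] using σ.injective h
    · intro n b r t n' b' r' t' h
      have := congrArg (fun p => p.unpair.1) (σ.injective h)
      simpa only [P_fst] using this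
    · intro n x y
      simp [P]
    · intro B
      have h1 : σ ⁻¹' B ∈ {A | phi ⁻¹' A ∈ DensZero} ↔ σ ⁻¹' B ∈ {A | σ '' A ∈ EU f} := by
        rw [hEq]
      rw [Set.mem_ofPred_eq, Set.mem_ofPred_eq, Equiv.image_preimage, hI] at h1
      have h2 : Lines (fun n => 2 ^ n) P (σ ⁻¹' B) ↔
          Lines (fun n => 2 ^ n) (fun n b r t => σ (P n b r t)) B := by
        unfold Lines
        exact Iff.rfl
      have h3 : Tendsto (rho f B) atTop (𝓝 0) ↔ B ∈ EU f := by
        unfold EU rho F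
        rw [Set.mem_ofPred_eq]
      rw [h3, ← h1, h2]

end Pool.Agent.Results.MP_8a0632_lc.NotEU
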